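import Pool.Agent.R280.OrdBanachSep

/-!
# Separable ordered Banach spaces with property (S) (MP_06b617_an, Q1: yes)

If an increasing order bounded sequence does not converge in norm, then there are `d_k ≥ 0` with
`‖d_k‖ ≥ ε` whose partial sums are order bounded. The suprema of the partial sums of
`∑ t_k d_k` (`0 ≤ t ∈ ℓ_∞`) define a positive linear map `T : ℓ_∞ → X`, which is bounded by the closed
graph theorem, and `‖T e_k‖ = ‖d_k‖ ≥ ε`. By Rosenthal's lemma, `T` is then an isomorphism on
`ℓ_∞(M)` up to a small error for an infinite set `M`, so the indicator functions of the subsets of
`M` have images at distance at least `ε / 2`, and `X` is not separable.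
-/

set_option autoImplicit false

universe u

open Filter Topology
open Pool.Agent.R280.OrdBanach

namespace Pool.Agent.Results.MP_06b617_an.NormConvergence

/-- Let `X` be a separable real Banach space ordered by the closed cone `K` such that every
increasing order bounded sequence in `X` has a supremum. Then every increasing order bounded
sequence in `X` converges in norm. -/
theorem result (X : Type u) [NormedAddCommGroup X] [NormedSpace ℝ X] [CompleteSpace X]
    [TopologicalSpace.SeparableSpace X] (K : Set X) (hK : IsClosedCone K) (hS : PropertyS K)
    (x : ℕ → X) (hx : IsIncreasing K x) (hb : IsOrderBounded K x) :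
    ∃ s : X, Tendsto x atTop (𝓝 s) :=
  tendsto_of_propertyS hK hS x hx hb

end Pool.Agent.Results.MP_06b617_an.NormConvergence
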